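import Mathlib

/-! # No left-right pair generates a rootless tree -/

set_option autoImplicit false

namespace Pool.Agent.Results.MP_b00f03_nt.NoRootlessTree

/-- The vertices: the elements `x + y i` of the subfield `K` of `ℂ` with `x > 0` and `y > 0`. -/
def Vertex (K : Subfield ℂ) : Type := {z : ℂ // z ∈ K ∧ 0 < z.re ∧ 0 < z.im}

/-- `T(z) = (a z + b) / (c z + d)` for a matrix `T = (a, b; c, d)` of nonnegative integers. -/
noncomputable def act (T : Matrix (Fin 2) (Fin 2) ℕ) (z : ℂ) : ℂ :=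
  ((T 0 0 : ℂ) * z + (T 0 1 : ℂ)) / ((T 1 0 : ℂ) * z + (T 1 1 : ℂ))

/-- `T` belongs to the semigroup `SL₂(ℕ₀)`: nonnegative integer entries and determinant `1`. -/
def InSL2N (T : Matrix (Fin 2) (Fin 2) ℕ) : Prop :=
  (T 0 0 : ℤ) * (T 1 1 : ℤ) - (T 0 1 : ℤ) * (T 1 0 : ℤ) = 1

/-- `(L, R)` is a left-right pair (over `K`): two non-identity elements of `SL₂(ℕ₀)` with
`L(𝒟₀) ∩ R(𝒟₀) = ∅`. -/
structure IsLeftRightPair (K : Subfield ℂ) (L R : Matrix (Fin 2) (Fin 2) ℕ) : Prop where
  memL : InSL2N L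
  memR : InSL2N R
  neL : L ≠ 1
  neR : R ≠ 1
  disj : ∀ z w : Vertex K, act L z.1 ≠ act R w.1

/-- The directed edges `z → L(z)` and `z → R(z)` of the graph `ℱ(L, R)`. -/
def Edge (K : Subfield ℂ) (L R : Matrix (Fin 2) (Fin 2) ℕ) (z w : Vertex K) : Prop :=
  w.1 = act L z.1 ∨ w.1 = act R z.1

/-- An orphan: a vertex without a parent. -/
def Orphan (K : Subfield ℂ) (L R : Matrix (Fin 2) (Fin 2) ℕ) (w : Vertex K) : Prop :=
  ∀ z : Vertex K, ¬ Edge K L R z w

/-- Some connected component of `ℱ(L, R)` contains no orphan.  (Two vertices are in the same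
component when they are related by the equivalence relation generated by the edges.) -/
def HasRootlessComponent (K : Subfield ℂ) (L R : Matrix (Fin 2) (Fin 2) ℕ) : Prop :=
  ∃ z : Vertex K, ∀ w : Vertex K, Relation.EqvGen (Edge K L R) z w → ¬ Orphan K L R w

/-! ### One step -/

theorem step {T : Matrix (Fin 2) (Fin 2) ℕ} (hT : InSL2N T) (hne : T ≠ 1) {z w : ℂ}
    (hz1 : 0 < z.re) (hz2 : 0 < z.im) (hw2 : 0 < w.im) (h : w = act T z) :
    w.im ≤ z.im ∧ (w.im * (1 + z.im ^ 2) ≤ z.im ∨ (z.re ≤ w.re - 1)) := by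
  obtain ⟨a, ha⟩ : ∃ a, a = T 0 0 := ⟨_, rfl⟩
  obtain ⟨b, hb⟩ : ∃ b, b = T 0 1 := ⟨_, rfl⟩
  obtain ⟨c, hc⟩ : ∃ c, c = T 1 0 := ⟨_, rfl⟩
  obtain ⟨d, hd⟩ : ∃ d, d = T 1 1 := ⟨_, rfl⟩
  have hdet : (a : ℤ) * d - b * c = 1 := by rw [ha, hb, hc, hd]; exact hT
  have hd0 : d ≠ 0 := by
    rintro rfl
    have : (b : ℤ) * c ≥ 0 := by positivity
    simp at hdet
    omega
  have hd1 : (1 : ℝ) ≤ d := by exact_mod_cast Nat.one_le_iff_ne_zero.2 hd0
  have hc0 : (0 : ℝ) ≤ c := Nat.cast_nonneg _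
  unfold act at h
  rw [← ha, ← hb, ← hc, ← hd] at h
  set D : ℝ := (c * z.re + d) ^ 2 + (c * z.im) ^ 2 with hD
  have hDge : 1 + (c : ℝ) ^ 2 * z.im ^ 2 ≤ D := by
    have h1 : (1 : ℝ) ≤ c * z.re + d := by nlinarith [mul_nonneg hc0 hz1.le]
    rw [hD]; nlinarith
  have hDpos : 0 < D := by nlinarith [mul_nonneg (sq_nonneg (c : ℝ)) (sq_nonneg z.im)]
  have hne0 : ((c : ℂ) * z + (d : ℂ)) ≠ 0 := by
    intro h0
    have h1 := congrArg Complex.re h0
    simp at h1
    nlinarith [mul_nonneg hc0 hz1.le]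
  have hw : w * ((c : ℂ) * z + d) = (a : ℂ) * z + b := by
    rw [h, div_mul_cancel₀ _ hne0]
  have hre := congrArg Complex.re hw
  have him := congrArg Complex.im hw
  simp at hre him
  have hdetR : (a : ℝ) * d - b * c = 1 := by exact_mod_cast hdet
  have key : w.im * D = z.im := by
    rw [hD]
    have e1 : w.im * ((c * z.re + d) ^ 2 + (c * z.im) ^ 2) =
        (w.re * (c * z.im) + w.im * (c * z.re + d)) * (c * z.re + d) -
        (w.re * (c * z.re + d) - w.im * (c * z.im)) * (c * z.im) := by ring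
    rw [e1, him, hre]
    linear_combination z.im * hdetR
  refine ⟨by nlinarith [mul_nonneg (sq_nonneg (c : ℝ)) (sq_nonneg z.im)], ?_⟩
  rcases Nat.eq_zero_or_pos c with hc | hc
  · right
    subst hc
    have had : (a : ℤ) * d = 1 := by simpa using hdet
    have had' : a * d = 1 := by exact_mod_cast had
    obtain ⟨rfl, rfl⟩ : a = 1 ∧ d = 1 := ⟨Nat.eq_one_of_mul_eq_one_right had', Nat.eq_one_of_mul_eq_one_left had'⟩
    have hb0 : b ≠ 0 := by
      rintro rfl
      apply hne
      ext i j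
      fin_cases i <;> fin_cases j <;> simp [← ha, ← hb, ← hc, ← hd]
    have hb1 : (1 : ℝ) ≤ b := by exact_mod_cast Nat.one_le_iff_ne_zero.2 hb0
    simp at hre
    linarith
  · left
    have hc1 : (1 : ℝ) ≤ c := by exact_mod_cast hc
    have h2 : 1 + z.im ^ 2 ≤ D := by
      have : z.im ^ 2 ≤ (c : ℝ) ^ 2 * z.im ^ 2 := by
        nlinarith [sq_nonneg z.im, mul_self_nonneg ((c : ℝ) - 1)]
      linarith
    nlinarith

/-- No infinite chain of ancestors. -/
theorem no_chain {K : Subfield ℂ} {L R : Matrix (Fin 2) (Fin 2) ℕ} (h : IsLeftRightPair K L R)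
    (f : ℕ → Vertex K) (hf : ∀ n, Edge K L R (f (n + 1)) (f n)) : False := by
  have hst : ∀ n, (f n).1.im ≤ (f (n + 1)).1.im ∧
      ((f n).1.im * (1 + (f (n + 1)).1.im ^ 2) ≤ (f (n + 1)).1.im ∨
        (f (n + 1)).1.re ≤ (f n).1.re - 1) := by
    intro n
    rcases hf n with h1 | h1
    · exact step h.memL h.neL (f (n + 1)).2.2.1 (f (n + 1)).2.2.2 (f n).2.2.2 h1
    · exact step h.memR h.neR (f (n + 1)).2.2.1 (f (n + 1)).2.2.2 (f n).2.2.2 h1
  have hmono : Monotone fun n => (f n).1.im := monotone_nat_of_le_succ fun n => (hst n).1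
  set y : ℝ := (f 0).1.im with hy
  have hy0 : 0 < y := (f 0).2.2.2
  have hge : ∀ n, y ≤ (f n).1.im := fun n => hmono (Nat.zero_le n)
  by_cases hinf : ∀ N, ∃ n, N ≤ n ∧ (f n).1.im * (1 + (f (n + 1)).1.im ^ 2) ≤ (f (n + 1)).1.im
  · -- the imaginary parts increase without bound, but stay below `1 / y`
    have hup : ∀ k : ℕ, ∃ n, y + k * y ^ 3 ≤ (f n).1.im := by
      intro k
      induction k with
      | zero => exact ⟨0, by simp [hy]⟩
      | succ k ih =>
        obtain ⟨n, hn⟩ := ih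
        obtain ⟨m, hm1, hm2⟩ := hinf n
        refine ⟨m + 1, ?_⟩
        have h1 : y + k * y ^ 3 ≤ (f m).1.im := hn.trans (hmono hm1)
        have h2 : y ≤ (f (m + 1)).1.im := hge (m + 1)
        have h3 : y ≤ (f m).1.im := hge m
        have h4 : y * y ^ 2 ≤ (f m).1.im * (f (m + 1)).1.im ^ 2 :=
          mul_le_mul h3 (by nlinarith) (by positivity) (by linarith)
        push_cast
        nlinarith
    obtain ⟨k, hk⟩ := exists_nat_gt (1 / y / y ^ 3)
    obtain ⟨n, hn⟩ := hup k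
    obtain ⟨m, hm1, hm2⟩ := hinf n
    have h1 : (f n).1.im ≤ (f (m + 1)).1.im := hmono (by omega)
    have h2 : y * (f (m + 1)).1.im ≤ 1 := by
      have h3 := hge m
      have h4 : 0 < (f (m + 1)).1.im := (f (m + 1)).2.2.2
      have h5 : y * (1 + (f (m + 1)).1.im ^ 2) ≤ (f (m + 1)).1.im :=
        (mul_le_mul_of_nonneg_right h3 (by positivity)).trans hm2
      by_contra hcon
      push Not at hcon
      nlinarith
    have h6 : 1 / y < k * y ^ 3 := by
      rwa [div_lt_iff₀ (by positivity)] at hk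
    have h7 : 1 < y * (k * y ^ 3) := by
      rw [div_lt_iff₀ hy0] at h6
      linarith
    nlinarith
  · -- from some point on every step is a translation
    push Not at hinf
    obtain ⟨N, hN⟩ := hinf
    have hdec : ∀ k : ℕ, (f (N + k)).1.re ≤ (f N).1.re - k := by
      intro k
      induction k with
      | zero => simp
      | succ k ih =>
        rcases (hst (N + k)).2 with h1 | h1
        · exact absurd h1 (not_le.2 (hN (N + k) (by omega)))
        · have e : N + (k + 1) = N + k + 1 := by ring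
          rw [e]
          push_cast
          linarith
    obtain ⟨k, hk⟩ := exists_nat_gt (f N).1.re
    have := hdec k
    have h2 := (f (N + k)).2.2.1
    linarith

/-- For every subfield `K` of `ℂ` not contained in `ℝ`, the set of left-right pairs `(L, R)` whose
forest `ℱ(L, R)` has a rootless component is empty. -/
theorem result (K : Subfield ℂ) (_hK : ∃ z ∈ K, z.im ≠ 0) :
    {p : Matrix (Fin 2) (Fin 2) ℕ × Matrix (Fin 2) (Fin 2) ℕ |
      IsLeftRightPair K p.1 p.2 ∧ HasRootlessComponent K p.1 p.2} = ∅ := by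
  rw [Set.eq_empty_iff_forall_notMem]
  rintro ⟨L, R⟩ ⟨hLR, z, hz⟩
  -- every vertex of the component has a parent in the component
  have hpar : ∀ w : {w : Vertex K // Relation.EqvGen (Edge K L R) z w},
      ∃ v : {w : Vertex K // Relation.EqvGen (Edge K L R) z w}, Edge K L R v.1 w.1 := by
    rintro ⟨w, hw⟩
    have h1 := hz w hw
    unfold Orphan at h1
    push Not at h1
    obtain ⟨v, hv⟩ := h1
    exact ⟨⟨v, hw.trans _ _ _ ((Relation.EqvGen.rel _ _ hv).symm _ _)⟩, hv⟩
  choose g hg using hpar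
  let F : ℕ → {w : Vertex K // Relation.EqvGen (Edge K L R) z w} :=
    fun n => g^[n] ⟨z, Relation.EqvGen.refl z⟩
  apply no_chain hLR (fun n => (F n).1)
  intro n
  have : F (n + 1) = g (F n) := Function.iterate_succ_apply' g n _
  rw [this]
  exact hg (F n)

end Pool.Agent.Results.MP_b00f03_nt.NoRootlessTree
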